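import Pool.Agent.Helper26.HB.Goals

/-!
# PACKET HB-IV (MP_a47ed5_al, project HB of helper26)

A function without upward jumps takes all intermediate values, hence uncountably many.
-/

set_option autoImplicit false

namespace Pool.Agent.Helper90.HB

open Pool.Agent.Helper26.HB

theorem gIV : G_IV := by
  intro s C ε hε h0 h1 hj hcount
  have key : Set.Ioo (0 : ℝ) ε ⊆ s '' Set.Icc (0 : ℝ) 1 := by
    rintro w ⟨hw0, hwε⟩
    obtain ⟨K, hKdef⟩ : ∃ K, K = max C 0 := ⟨_, rfl⟩
    have hK : 0 ≤ K := by rw [hKdef]; exact le_max_right _ _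
    have hCK : C ≤ K := by rw [hKdef]; exact le_max_left _ _
    have hj' : ∀ t t' : ℝ, 0 ≤ t → t < t' → t' ≤ 1 → s t' ≤ s t + K * (t' - t) := by
      intro t t' ht htt' ht'
      have h := hj t t' ht htt' ht'
      have h2 : C * (t' - t) ≤ K * (t' - t) :=
        mul_le_mul_of_nonneg_right hCK (by linarith)
      linarith
    let A : Set ℝ := {t | (0 ≤ t ∧ t ≤ 1) ∧ w < s t}
    have h1A : (1 : ℝ) ∈ A := ⟨⟨zero_le_one, le_refl _⟩, by linarith⟩
    have hne : A.Nonempty := ⟨1, h1A⟩
    have hbdd : BddBelow A := ⟨0, fun t ht => ht.1.1⟩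
    obtain ⟨T, hT⟩ : ∃ T, T = sInf A := ⟨_, rfl⟩
    have hT0 : 0 ≤ T := by rw [hT]; exact le_csInf hne (fun t ht => ht.1.1)
    have hT1 : T ≤ 1 := by rw [hT]; exact csInf_le hbdd h1A
    have hlow : ∀ t : ℝ, 0 ≤ t → t < T → s t ≤ w := by
      intro t ht htT
      by_contra hlt
      have : t ∈ A := ⟨⟨ht, by linarith⟩, not_le.mp hlt⟩
      have := csInf_le hbdd this
      rw [← hT] at this
      linarith
    have hTle : s T ≤ w := by
      by_contra hlt
      have hlt : w < s T := not_le.mp hlt
      rcases hT0.eq_or_lt with h | h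
      · rw [← h] at hlt; linarith
      · obtain ⟨d, hd⟩ : ∃ d, d = min T ((s T - w) / (2 * (K + 1))) := ⟨_, rfl⟩
        have hpos : 0 < (s T - w) / (2 * (K + 1)) := div_pos (by linarith) (by linarith)
        have hd0 : 0 < d := by rw [hd]; exact lt_min h hpos
        have hdT : d ≤ T := by rw [hd]; exact min_le_left _ _
        have hd2 : d ≤ (s T - w) / (2 * (K + 1)) := by rw [hd]; exact min_le_right _ _
        have hd3 : d * (2 * (K + 1)) ≤ s T - w := (le_div_iff₀ (by linarith)).mp hd2
        have h2 := hlow (T - d) (by linarith) (by linarith)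
        have h3 := hj' (T - d) T (by linarith) (by linarith) hT1
        have h4 : K * (T - (T - d)) = K * d := by ring
        rw [h4] at h3
        nlinarith
    have hTge : w ≤ s T := by
      by_contra hlt
      have hlt : s T < w := not_le.mp hlt
      obtain ⟨d, hd⟩ : ∃ d, d = (w - s T) / (2 * (K + 1)) := ⟨_, rfl⟩
      have hd0 : 0 < d := by rw [hd]; exact div_pos (by linarith) (by linarith)
      have hd3 : d * (2 * (K + 1)) = w - s T := by
        rw [hd]; field_simp
      obtain ⟨t, htA, htlt⟩ := exists_lt_of_csInf_lt hne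
        (show sInf A < T + d by rw [← hT]; linarith)
      have hTt : T ≤ t := by rw [hT]; exact csInf_le hbdd htA
      have hTt' : T < t := by
        rcases hTt.eq_or_lt with h | h
        · exfalso
          have := htA.2
          rw [← h] at this
          linarith
        · exact h
      have h3 := hj' T t hT0 hTt' htA.1.2
      have h4 : K * (t - T) ≤ K * d := mul_le_mul_of_nonneg_left (by linarith) hK
      have h5 := htA.2
      nlinarith
    exact ⟨T, ⟨hT0, hT1⟩, le_antisymm hTle hTge⟩
  have hc : (Set.Ioo (0 : ℝ) ε).Countable := hcount.mono key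
  have hz : MeasureTheory.volume (Set.Ioo (0 : ℝ) ε) = 0 := hc.measure_zero _
  rw [Real.volume_Ioo] at hz
  rw [ENNReal.ofReal_eq_zero] at hz
  linarith

end Pool.Agent.Helper90.HB
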